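import Pool.Agent.Helper68.VN.GoalsA
import Pool.Agent.Helper35.SGC1.NFB
import Pool.Agent.Helper29.BL.PS

/-!
Packet PG-BRNB (MP_a41896_nt, project PG): size of the bracket.
-/

set_option autoImplicit false

open MvPolynomial

namespace Pool.Agent.Helper50.VN.BRNB

open WeierstrassCurve Height
open Pool.Agent.Helper29.BL Pool.Agent.Helper92.Ru Pool.Agent.Helper42.SG
open Pool.Agent.Helper76.SGC (NFB)
open Pool.Agent.Helper77.SGC (N0)
open Pool.Agent.Helper68.VN

/-- the field itself is a norm frame -/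
theorem frK (K : Type) [Field K] (v : AbsoluteValue K ℝ) :
    NFr (A := K) v (fun f T => v f ≤ T) where
  const k := by
    show v (algebraMap K K k) ≤ v k
    rw [Algebra.algebraMap_self_apply]
  mul f g S T hf hg := by
    show v (f * g) ≤ S * T
    rw [v.map_mul]
    exact mul_le_mul hf hg (v.nonneg _) ((v.nonneg _).trans hf)
  add f g S T hf hg := (v.add_le f g).trans (add_le_add hf hg)
  max hv f g S T hf hg := (hv f g).trans (max_le_max hf hg)
  mono f S T hf h := le_trans hf h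
  nonneg f T hf := (v.nonneg f).trans hf

theorem cst_prod {K : Type} [Field K] (v : AbsoluteValue K ℝ) {ι : Type} (S : Finset ι) (f : ι → ℝ) :
    cst v (∏ x ∈ S, f x) = ∏ x ∈ S, cst v (f x) := by
  by_cases hv : IsNonarchimedean v
  · rw [cst_of_nonarch hv]
    symm
    apply Finset.prod_eq_one
    intro x _
    exact cst_of_nonarch hv _
  · rw [cst_of_not_nonarch hv]
    apply Finset.prod_congr rfl
    intro x _
    rw [cst_of_not_nonarch hv]

theorem one_le_Mv {K : Type} [Field K] (v : AbsoluteValue K ℝ) (x : K) : 1 ≤ Mv v x := le_max_left _ _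

theorem v_pow_le {K : Type} [Field K] (v : AbsoluteValue K ℝ) (x : K) (a b : ℕ) (h : a ≤ b) :
    v x ^ a ≤ Mv v x ^ b :=
  (pow_le_pow_left₀ (v.nonneg x) (le_max_right _ _) a).trans
    (pow_le_pow_right₀ (one_le_Mv v x) h)

/-- one block -/
theorem block (hNFB : NFB) {K : Type} [Field K] [NumberField K] {σ : Type} [Fintype σ]
    [DecidableEq σ] (W : σ → Affine K) (B : AbsoluteValue K ℝ → ℝ) (D : ℕ) (v : AbsoluteValue K ℝ)
    (hB : 1 ≤ B v) (b : ℝ) (hb : 1 ≤ b) (M e N : ℕ) (hN : N = N0 M e)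
    (S : σ → ℕ → Bool → Fin 2 → ℕ → ℕ → ℕ → ℕ → K) (hS : ArS W B D M S)
    (r : (σ → ℕ) → K) (hr : ∀ s, v (r s) ≤ b ^ (N + 1)) (l : σ → Bool) (μ : σ → Fin 2)
    (x : Ax σ M e) (x0 : σ → K) :
    v (∑ g ∈ box σ (2 * M), Gam S M e r l μ g x * ∏ i, x0 i ^ g i) ≤
      cst v (((2 * M + 1 : ℝ) * (N + 1)) ^ Fintype.card σ) *
        ((b ^ (N + 1) * B v ^ (4 ^ e * (M + 1) * Fintype.card σ)) *
          ∏ i, Mv v (x0 i) ^ (2 * M - 2 * (μ i).val)) := by
  obtain ⟨h00, h11, hpow, hprod, hsum⟩ := hNFB K v K (fun f T => v f ≤ T) (frK K v)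
  have hG0 : 0 ≤ b ^ (N + 1) * B v ^ (4 ^ e * (M + 1) * Fintype.card σ) :=
    mul_nonneg (pow_nonneg (by linarith) _) (pow_nonneg (by linarith) _)
  have hP0 : 0 ≤ ∏ i, Mv v (x0 i) ^ (2 * M - 2 * (μ i).val) :=
    Finset.prod_nonneg fun i _ => pow_nonneg (zero_le_one.trans (one_le_Mv v (x0 i))) _
  have hN1 : (1 : ℝ) ≤ (N : ℝ) + 1 := by
    have : (0 : ℝ) ≤ N := Nat.cast_nonneg _
    linarith
  have hc0 : 0 ≤ cst v (((N : ℝ) + 1) ^ Fintype.card σ) := (cst_pos v (one_le_pow₀ hN1)).le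
  -- the size of `Gam`
  have hGam : ∀ g : σ → ℕ, v (Gam S M e r l μ g x) ≤
      cst v (((N : ℝ) + 1) ^ Fintype.card σ) *
        (b ^ (N + 1) * B v ^ (4 ^ e * (M + 1) * Fintype.card σ)) := by
    intro g
    unfold Gam
    have h1 := hsum (σ → ℕ) (box σ (N0 M e)) (fun s => r s *
      ∏ i, S i e (l i) (μ i) (s i) (g i) (x i).1.val (x i).2.val)
      (b ^ (N + 1) * B v ^ (4 ^ e * (M + 1) * Fintype.card σ)) hG0 (by
        intro s _
        show v (r s * ∏ i, S i e (l i) (μ i) (s i) (g i) (x i).1.val (x i).2.val) ≤ _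
        rw [v.map_mul]
        refine mul_le_mul (hr s) ?_ (v.nonneg _) (pow_nonneg (by linarith) _)
        have h2 := hprod σ Finset.univ (fun i => S i e (l i) (μ i) (s i) (g i) (x i).1.val
          (x i).2.val) (fun _ => B v ^ (4 ^ e * (M + 1))) fun i _ => hS.bd i e _ _ _ _ _ _ v
        rw [Finset.prod_const, Finset.card_univ, ← pow_mul] at h2
        exact h2)
    have h3 : ((box σ (N0 M e)).card : ℝ) = ((N : ℝ) + 1) ^ Fintype.card σ := by
      unfold box
      rw [Fintype.card_piFinset, Finset.prod_const, Finset.card_univ, Finset.card_range, ← hN]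
      push_cast
      rfl
    rw [h3] at h1
    exact h1
  -- one term
  have hterm : ∀ g : σ → ℕ, v (Gam S M e r l μ g x * ∏ i, x0 i ^ g i) ≤
      cst v (((N : ℝ) + 1) ^ Fintype.card σ) *
        (b ^ (N + 1) * B v ^ (4 ^ e * (M + 1) * Fintype.card σ)) *
          ∏ i, Mv v (x0 i) ^ (2 * M - 2 * (μ i).val) := by
    intro g
    by_cases hz : Gam S M e r l μ g x = 0
    · rw [hz, zero_mul, v.map_zero]
      exact mul_nonneg (mul_nonneg hc0 hG0) hP0
    · obtain ⟨s, -, hs⟩ := Finset.exists_ne_zero_of_sum_ne_zero hz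
      have hs2 := right_ne_zero_of_mul hs
      have hs3 : ∀ i, S i e (l i) (μ i) (s i) (g i) (x i).1.val (x i).2.val ≠ 0 := fun i =>
        Finset.prod_ne_zero_iff.mp hs2 i (Finset.mem_univ i)
      rw [v.map_mul]
      refine mul_le_mul (hGam g) ?_ (v.nonneg _) (mul_nonneg hc0 hG0)
      rw [map_prod]
      apply Finset.prod_le_prod
      · intro i _
        exact v.nonneg _
      · intro i _
        rw [v.map_pow]
        have := (hS.deg i e _ _ _ _ _ _ (hs3 i)).2
        exact v_pow_le v _ _ _ (by omega)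
  have h4 := hsum (σ → ℕ) (box σ (2 * M)) (fun g => Gam S M e r l μ g x * ∏ i, x0 i ^ g i) _
    (mul_nonneg (mul_nonneg hc0 hG0) hP0) fun g _ => hterm g
  have h5 : ((box σ (2 * M)).card : ℝ) = (2 * (M : ℝ) + 1) ^ Fintype.card σ := by
    unfold box
    rw [Fintype.card_piFinset, Finset.prod_const, Finset.card_univ, Finset.card_range]
    push_cast
    rfl
  rw [h5] at h4
  refine le_trans h4 (le_of_eq ?_)
  rw [mul_pow, cst_mul]
  ring

theorem t_BRNB : BRNB := by
  intro K _ _ σ _ _ W B B' D d c hB hB' J f Df n M δ p hδ e S T _ gr E r hS hC cc x0 v s hs0 hs lam μ t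
  have hNFB : NFB := Pool.Agent.Helper35.SGC1.nfb
  obtain ⟨h00, h11, hpow, hprod, hsum⟩ := hNFB K v K (fun f T => v f ≤ T) (frK K v)
  set Tb : Fin n → ℝ := fun j =>
    cst v (((2 * M + 1 : ℝ) * (N0 M (e j) + 1)) ^ Fintype.card σ) *
        ((B' v ^ (N0 M (e j) + 1) * B v ^ (4 ^ e j * (M + 1) * Fintype.card σ)) *
          ∏ i, Mv v (x0 i) ^ (2 * M - 2 * (μ j i).val)) with hTb
  have hblk : ∀ (α : Ix σ n M δ e) (j : Fin n),
      v (∑ g ∈ box σ (2 * M), Gam S M (e j) (r j (t j)) (lam j) (μ j) g (α.1 j) *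
        ∏ i, x0 i ^ g i) ≤ Tb j := fun α j =>
    block hNFB W B D v (hB v) (B' v) (hB' v) M (e j) (N0 M (e j)) rfl S hS (r j (t j))
      (fun s => (hC j).bd v (t j) s) (lam j) (μ j) (α.1 j) x0
  have hT0 : ∀ j, 0 ≤ Tb j := by
    intro j
    have h1 : (0 : ℝ) ≤ M := Nat.cast_nonneg _
    have h2 : (0 : ℝ) ≤ (N0 M (e j) : ℝ) := Nat.cast_nonneg _
    have h3 : (1 : ℝ) ≤ (2 * M + 1 : ℝ) * (N0 M (e j) + 1) := by nlinarith
    refine mul_nonneg (cst_pos v (one_le_pow₀ h3)).le (mul_nonneg (mul_nonneg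
      (pow_nonneg (zero_le_one.trans (hB' v)) _) (pow_nonneg (zero_le_one.trans (hB v)) _)) ?_)
    exact Finset.prod_nonneg fun i _ => pow_nonneg (zero_le_one.trans (one_le_Mv v (x0 i))) _
  have hall : ∀ α : Ix σ n M δ e, v (cc α *
      (∏ j, ∑ g ∈ box σ (2 * M), Gam S M (e j) (r j (t j)) (lam j) (μ j) g (α.1 j) *
        ∏ i, x0 i ^ g i) * ∏ i, x0 i ^ (α.2 i).val) ≤
      s * (∏ j, Tb j) * ∏ i, Mv v (x0 i) ^ δ := by
    intro α
    rw [v.map_mul, v.map_mul]
    refine mul_le_mul (mul_le_mul (hs α) ?_ (v.nonneg _) hs0) ?_ (v.nonneg _)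
      (mul_nonneg hs0 (Finset.prod_nonneg fun j _ => hT0 j))
    · exact hprod (Fin n) Finset.univ _ _ fun j _ => hblk α j
    · rw [map_prod]
      apply Finset.prod_le_prod
      · intro i _
        exact v.nonneg _
      · intro i _
        rw [v.map_pow]
        exact v_pow_le v _ _ _ (α.2 i).isLt.le
  have hfin := hsum (Ix σ n M δ e) Finset.univ _ _ (mul_nonneg (mul_nonneg hs0
    (Finset.prod_nonneg fun j _ => hT0 j)) (Finset.prod_nonneg fun i _ =>
      pow_nonneg (zero_le_one.trans (one_le_Mv v (x0 i))) δ)) fun α _ => hall α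
  unfold BrB
  refine le_trans hfin (le_of_eq ?_)
  rw [Finset.card_univ, ← Nat.card_eq_fintype_card, cst_mul, cst_prod, hTb]
  simp only [Finset.prod_mul_distrib]
  ring

end Pool.Agent.Helper50.VN.BRNB
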